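import Pool.Agent.Gen.TY.E.M00
import Pool.Agent.Gen.TY.E.M01
import Pool.Agent.Gen.TY.E.M02
import Pool.Agent.Gen.TY.E.M03
import Pool.Agent.Gen.TY.E.M04
import Pool.Agent.Gen.TY.E.M05
import Pool.Agent.Gen.TY.E.M06
import Pool.Agent.Gen.TY.E.M07
import Pool.Agent.Gen.TY.E.M08
import Pool.Agent.Gen.TY.E.M09
import Pool.Agent.Gen.TY.E.M10
import Pool.Agent.Gen.TY.E.M11
import Pool.Agent.Gen.TY.E.M12
import Pool.Agent.Gen.TY.E.M13
import Pool.Agent.Gen.TY.E.M14
import Pool.Agent.Gen.TY.E.M15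
import Pool.Agent.Gen.TY.E.M16
import Pool.Agent.Gen.TY.E.M17
import Pool.Agent.Gen.TY.E.M18
import Pool.Agent.Gen.TY.E.M19
import Pool.Agent.Gen.TY.E.M20
import Pool.Agent.Gen.TY.E.M21
import Pool.Agent.Gen.TY.E.M22
import Pool.Agent.Gen.TY.E.M23
import Pool.Agent.Gen.TY.E.M24
import Pool.Agent.Gen.TY.E.M25
import Pool.Agent.Gen.TY.E.M26
import Pool.Agent.Gen.TY.E.M27
import Pool.Agent.Gen.TY.E.M28
import Pool.Agent.Gen.TY.E.M29
import Pool.Agent.Gen.TY.E.M30
import Pool.Agent.Gen.TY.E.M31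
import Pool.Agent.Gen.TY.E.M32
import Pool.Agent.Gen.TY.E.M33
import Pool.Agent.Gen.TY.E.M34
import Pool.Agent.Gen.TY.E.M35
import Pool.Agent.Gen.TY.E.M36
import Pool.Agent.Gen.TY.E.M37
import Pool.Agent.Gen.TY.E.M38
import Pool.Agent.Gen.TY.E.M39
import Pool.Agent.Gen.TY.E.M40
import Pool.Agent.Gen.TY.E.M41
import Pool.Agent.Gen.TY.E.M42
import Pool.Agent.Gen.TY.E.M43
import Pool.Agent.Gen.TY.E.M44
import Pool.Agent.Gen.TY.E.M45
import Pool.Agent.Gen.TY.E.M46
import Pool.Agent.Gen.TY.E.M47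

/-!
MP_8ee768_co, project TH-Y', stage E: all centres of excess 6.
-/

set_option autoImplicit false

namespace Pool.Agent.Gen.TY.E

open Pool.Agent.Helper60.TY

/-- **stage E**: if the tables are right, all centres of excess 6 are done -/
theorem all : SE 466 24746 :=
  (M00.seg).app <|
  (M01.seg).app <|
  (M02.seg).app <|
  (M03.seg).app <|
  (M04.seg).app <|
  (M05.seg).app <|
  (M06.seg).app <|
  (M07.seg).app <|
  (M08.seg).app <|
  (M09.seg).app <|
  (M10.seg).app <|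
  (M11.seg).app <|
  (M12.seg).app <|
  (M13.seg).app <|
  (M14.seg).app <|
  (M15.seg).app <|
  (M16.seg).app <|
  (M17.seg).app <|
  (M18.seg).app <|
  (M19.seg).app <|
  (M20.seg).app <|
  (M21.seg).app <|
  (M22.seg).app <|
  (M23.seg).app <|
  (M24.seg).app <|
  (M25.seg).app <|
  (M26.seg).app <|
  (M27.seg).app <|
  (M28.seg).app <|
  (M29.seg).app <|
  (M30.seg).app <|
  (M31.seg).app <|
  (M32.seg).app <|
  (M33.seg).app <|
  (M34.seg).app <|
  (M35.seg).app <|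
  (M36.seg).app <|
  (M37.seg).app <|
  (M38.seg).app <|
  (M39.seg).app <|
  (M40.seg).app <|
  (M41.seg).app <|
  (M42.seg).app <|
  (M43.seg).app <|
  (M44.seg).app <|
  (M45.seg).app <|
  (M46.seg).app <|
  M47.seg

end Pool.Agent.Gen.TY.E
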